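import Mathlib

set_option autoImplicit false

open Finset

namespace Pool.Agent.GTO.H20

variable {Γ : Type*} [AddCommGroup Γ] [DecidableEq Γ]

/-- number of `b ∈ S` with `-a-b ∉ S` -/
def bad (S : Finset Γ) (a : Γ) : ℕ := (S.filter fun b => -a - b ∉ S).card

/-- number of `x ∈ S` with `x - g ∈ S` -/
def ov (S : Finset Γ) (g : Γ) : ℕ := (S.filter fun x => x - g ∈ S).card

/-- the elements with few bad partners -/
def good (S : Finset Γ) : Finset Γ := S.filter fun a => 10 * bad S a ≤ S.card

theorem card_badpairs (S : Finset Γ) :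
    ((S ×ˢ S).filter fun p => -p.1 - p.2 ∉ S).card = ∑ a ∈ S, bad S a := by
  rw [Finset.card_filter, Finset.sum_product]
  refine Finset.sum_congr rfl fun a _ => ?_
  rw [bad, Finset.card_filter]

theorem card_good_add (S : Finset Γ) (a : Γ) :
    (S.filter fun b => -a - b ∈ S).card + bad S a = S.card :=
  Finset.card_filter_add_card_filter_not _

theorem inter_bound {S A B : Finset Γ} (hA : A ⊆ S) (hB : B ⊆ S) :
    A.card + B.card ≤ S.card + (A ∩ B).card := by
  have h1 := Finset.card_union_add_card_inter A B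
  have h2 : (A ∪ B).card ≤ S.card := Finset.card_le_card (Finset.union_subset hA hB)
  omega

section

variable (S : Finset Γ) (K : ℕ) (hS : S.Nonempty)
  (hbad : ((S ×ˢ S).filter fun p => -p.1 - p.2 ∉ S).card ≤ K * S.card)
  (hK : 100 * K ≤ S.card)

include hS hbad hK

theorem few : 10 * (S \ good S).card < S.card := by
  have hn : 0 < S.card := hS.card_pos
  rw [card_badpairs] at hbad
  have h1 : (S \ good S).card * (S.card + 1) ≤ 10 * (K * S.card) := by
    calc (S \ good S).card * (S.card + 1) = ∑ a ∈ S \ good S, (S.card + 1) := by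
          rw [Finset.sum_const, smul_eq_mul]
      _ ≤ ∑ a ∈ S \ good S, 10 * bad S a := by
          refine Finset.sum_le_sum fun a ha => ?_
          rw [Finset.mem_sdiff, good, Finset.mem_filter] at ha
          have h2 : ¬ 10 * bad S a ≤ S.card := fun h => ha.2 ⟨ha.1, h⟩
          omega
      _ ≤ ∑ a ∈ S, 10 * bad S a :=
          Finset.sum_le_sum_of_subset Finset.sdiff_subset
      _ = 10 * ∑ a ∈ S, bad S a := by rw [Finset.mul_sum]
      _ ≤ 10 * (K * S.card) := Nat.mul_le_mul_left _ hbad
  by_contra hno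
  push Not at hno
  have h3 : S.card * (S.card + 1) ≤ 10 * (S \ good S).card * (S.card + 1) :=
    Nat.mul_le_mul_right _ hno
  nlinarith

theorem ov_good {a a' : Γ} (ha : a ∈ good S) (ha' : a' ∈ good S) :
    8 * S.card ≤ 10 * ov S (a' - a) := by
  rw [good, Finset.mem_filter] at ha ha'
  have h1 := card_good_add S a
  have h2 := card_good_add S a'
  have h3 := inter_bound (Finset.filter_subset (fun b => -a - b ∈ S) S)
    (Finset.filter_subset (fun b => -a' - b ∈ S) S)
  have h4 : ((S.filter fun b => -a - b ∈ S) ∩ (S.filter fun b => -a' - b ∈ S)).card ≤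
      ov S (a' - a) := by
    refine Finset.card_le_card_of_injOn (fun z => -a - z) ?_ ?_
    · intro z hz
      rw [Finset.mem_coe, Finset.mem_inter, Finset.mem_filter, Finset.mem_filter] at hz
      rw [Finset.mem_coe, Finset.mem_filter]
      refine ⟨hz.1.2, ?_⟩
      have e : -a - z - (a' - a) = -a' - z := by abel
      rw [e]
      exact hz.2.2
    · intro z _ z' _ h
      exact sub_right_injective h
  omega

theorem exists_good {g : Γ} (hg : 2 * S.card ≤ 10 * ov S g) :
    ∃ x ∈ good S, x - g ∈ good S := by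
  have hf := few S K hS hbad hK
  by_contra hno
  push Not at hno
  have h1 : (S.filter fun x => x - g ∈ S) ⊆
      (S \ good S) ∪ (S \ good S).image (fun x => x + g) := by
    intro x hx
    rw [Finset.mem_filter] at hx
    rw [Finset.mem_union]
    by_cases h : x ∈ good S
    · right
      rw [Finset.mem_image]
      exact ⟨x - g, Finset.mem_sdiff.2 ⟨hx.2, hno x h⟩, sub_add_cancel x g⟩
    · left
      exact Finset.mem_sdiff.2 ⟨hx.1, h⟩
  have h2 : ov S g ≤ (S \ good S).card + (S \ good S).card :=
    calc ov S g ≤ _ := Finset.card_le_card h1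
      _ ≤ _ := Finset.card_union_le _ _
      _ ≤ _ := Nat.add_le_add_left Finset.card_image_le _
  omega

theorem ov_add {g h : Γ} (hg : 8 * S.card ≤ 10 * ov S g) (hh : 8 * S.card ≤ 10 * ov S h) :
    2 * S.card ≤ 10 * ov S (g + h) := by
  have h1 : ov S g ≤ (S.filter fun y => y + g ∈ S).card := by
    refine Finset.card_le_card_of_injOn (fun x => x - g) ?_ ?_
    · intro x hx
      rw [Finset.mem_coe, Finset.mem_filter] at hx ⊢
      exact ⟨hx.2, by rw [sub_add_cancel]; exact hx.1⟩
    · intro x _ x' _ hxx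
      exact sub_left_injective hxx
  have h3 := inter_bound (Finset.filter_subset (fun y => y + g ∈ S) S)
    (Finset.filter_subset (fun y => y - h ∈ S) S)
  have h4 : ((S.filter fun y => y + g ∈ S) ∩ (S.filter fun y => y - h ∈ S)).card ≤
      ov S (g + h) := by
    refine Finset.card_le_card_of_injOn (fun y => y + g) ?_ ?_
    · intro y hy
      rw [Finset.mem_coe, Finset.mem_inter, Finset.mem_filter, Finset.mem_filter] at hy
      rw [Finset.mem_coe, Finset.mem_filter]
      refine ⟨hy.1.2, ?_⟩
      have e : y + g - (g + h) = y - h := by abel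
      rw [e]
      exact hy.2.2
    · intro y _ y' _ hyy
      exact add_left_injective g hyy
  have h5 : ov S h = (S.filter fun y => y - h ∈ S).card := rfl
  omega

/-- the group of differences -/
def H0 (S : Finset Γ) : Finset Γ := (good S ×ˢ good S).image fun p => p.1 - p.2

omit hS hbad hK in
theorem mem_H0 {g : Γ} : g ∈ H0 S ↔ ∃ x ∈ good S, ∃ y ∈ good S, g = x - y := by
  rw [H0, Finset.mem_image]
  constructor
  · rintro ⟨p, hp, rfl⟩
    rw [Finset.mem_product] at hp
    exact ⟨p.1, hp.1, p.2, hp.2, rfl⟩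
  · rintro ⟨x, hx, y, hy, rfl⟩
    exact ⟨(x, y), Finset.mem_product.2 ⟨hx, hy⟩, rfl⟩

theorem ov_H0 {g : Γ} (hg : g ∈ H0 S) : 8 * S.card ≤ 10 * ov S g := by
  obtain ⟨x, hx, y, hy, rfl⟩ := (mem_H0 S).1 hg
  exact ov_good S K hS hbad hK hy hx

theorem H0_add {g h : Γ} (hg : g ∈ H0 S) (hh : h ∈ H0 S) : g + h ∈ H0 S := by
  have h1 := ov_add S K hS hbad hK (ov_H0 S K hS hbad hK hg) (ov_H0 S K hS hbad hK hh)
  obtain ⟨x, hx, hx'⟩ := exists_good S K hS hbad hK h1
  exact (mem_H0 S).2 ⟨x, hx, _, hx', by abel⟩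

omit hS hbad hK in
theorem H0_neg {g : Γ} (hg : g ∈ H0 S) : -g ∈ H0 S := by
  obtain ⟨x, hx, y, hy, rfl⟩ := (mem_H0 S).1 hg
  exact (mem_H0 S).2 ⟨y, hy, x, hx, by abel⟩

theorem good_nonempty : (good S).Nonempty := by
  have hf := few S K hS hbad hK
  by_contra hno
  rw [Finset.not_nonempty_iff_eq_empty] at hno
  rw [hno, Finset.sdiff_empty] at hf
  omega

theorem three {a : Γ} (ha : a ∈ good S) : -(a + a + a) ∈ H0 S := by
  have hf := few S K hS hbad hK
  have hn : 0 < S.card := hS.card_pos
  have hex : ∃ b ∈ good S, -a - b ∈ good S := by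
    by_contra hno
    push Not at hno
    have h1 : (S.filter fun b => -a - b ∈ S) ⊆
        (S \ good S) ∪ (S \ good S).image (fun x => -a - x) := by
      intro x hx
      rw [Finset.mem_filter] at hx
      rw [Finset.mem_union]
      by_cases h : x ∈ good S
      · right
        rw [Finset.mem_image]
        exact ⟨-a - x, Finset.mem_sdiff.2 ⟨hx.2, hno x h⟩, by abel⟩
      · left
        exact Finset.mem_sdiff.2 ⟨hx.1, h⟩
    have h2 : (S.filter fun b => -a - b ∈ S).card ≤ (S \ good S).card + (S \ good S).card :=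
      calc (S.filter fun b => -a - b ∈ S).card ≤ _ := Finset.card_le_card h1
        _ ≤ _ := Finset.card_union_le _ _
        _ ≤ _ := Nat.add_le_add_left Finset.card_image_le _
    have h3 := card_good_add S a
    rw [good, Finset.mem_filter] at ha
    omega
  obtain ⟨b, hb, hc⟩ := hex
  have h1 : b - a ∈ H0 S := (mem_H0 S).2 ⟨b, hb, a, ha, rfl⟩
  have h2 : (-a - b) - a ∈ H0 S := (mem_H0 S).2 ⟨_, hc, a, ha, rfl⟩
  have h3 := H0_add S K hS hbad hK h1 h2
  have e : b - a + (-a - b - a) = -(a + a + a) := by abel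
  rwa [e] at h3

theorem card_H0 : 8 * (H0 S).card ≤ 10 * S.card := by
  have hn : 0 < S.card := hS.card_pos
  have h1 : ∑ g ∈ H0 S, ov S g ≤ S.card * S.card := by
    have h2 : ∑ g ∈ H0 S, ov S g =
        ((H0 S).sigma fun g => S.filter fun x => x - g ∈ S).card := by
      rw [Finset.card_sigma]
      rfl
    rw [h2, ← Finset.card_product]
    refine Finset.card_le_card_of_injOn (fun z => (z.2, z.2 - z.1)) ?_ ?_
    · intro z hz
      rw [Finset.mem_coe, Finset.mem_sigma, Finset.mem_filter] at hz
      exact Finset.mem_coe.2 (Finset.mem_product.2 ⟨hz.2.1, hz.2.2⟩)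
    · rintro ⟨g, x⟩ _ ⟨g', x'⟩ _ h
      simp only [Prod.mk.injEq] at h
      obtain ⟨h3, h4⟩ := h
      subst h3
      have h5 : g = g' := sub_right_injective h4
      rw [h5]
  have h3 : (H0 S).card * (8 * S.card) ≤ 10 * (S.card * S.card) := by
    calc (H0 S).card * (8 * S.card) = ∑ g ∈ H0 S, 8 * S.card := by
          rw [Finset.sum_const, smul_eq_mul]
      _ ≤ ∑ g ∈ H0 S, 10 * ov S g :=
          Finset.sum_le_sum fun g hg => ov_H0 S K hS hbad hK hg
      _ = 10 * ∑ g ∈ H0 S, ov S g := by rw [Finset.mul_sum]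
      _ ≤ _ := Nat.mul_le_mul_left _ h1
  have h4 : S.card * (8 * (H0 S).card) ≤ S.card * (10 * S.card) := by nlinarith
  exact Nat.le_of_mul_le_mul_left h4 hn

/-- **NCS.**  A finite set for which almost all sums of two elements have their third point in the set
is close to a finite subset closed under `(a, b) ↦ -a-b` (a coset). -/
theorem ncs : ∃ H : Finset Γ, H.Nonempty ∧ (∀ a ∈ H, ∀ b ∈ H, -a - b ∈ H) ∧
    (H \ S).card ≤ 2 * K ∧ (S \ H).card ≤ 2 * K ∧
    ∀ h ∈ H, ∃ a ∈ S, ∃ a' ∈ S, ∃ a'' ∈ S, h = a + a' - a'' := by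
  have hf := few S K hS hbad hK
  have hn : 0 < S.card := hS.card_pos
  obtain ⟨a0, ha0⟩ := good_nonempty S K hS hbad hK
  have hgS : ∀ x ∈ good S, x ∈ S := fun x hx => (Finset.mem_filter.1 hx).1
  obtain ⟨H, hH⟩ : ∃ H : Finset Γ, H = (H0 S).image fun g => a0 + g := ⟨_, rfl⟩
  have hmem : ∀ h, h ∈ H ↔ h - a0 ∈ H0 S := by
    intro h
    rw [hH, Finset.mem_image]
    constructor
    · rintro ⟨g, hg, rfl⟩
      have e : a0 + g - a0 = g := by abel
      rwa [e]
    · intro hh
      exact ⟨_, hh, by abel⟩
  have hcl : ∀ a ∈ H, ∀ b ∈ H, -a - b ∈ H := by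
    intro a ha b hb
    rw [hmem] at ha hb ⊢
    have h1 := H0_add S K hS hbad hK (H0_add S K hS hbad hK (H0_neg S ha) (H0_neg S hb))
      (three S K hS hbad hK ha0)
    have e : -(a - a0) + -(b - a0) + -(a0 + a0 + a0) = -a - b - a0 := by abel
    rwa [e] at h1
  have hgH : good S ⊆ H := by
    intro x hx
    rw [hmem]
    exact (mem_H0 S).2 ⟨x, hx, a0, ha0, rfl⟩
  have hcH : H.card = (H0 S).card := by
    rw [hH]
    exact Finset.card_image_of_injective _ (add_right_injective a0)
  have hc0 := card_H0 S K hS hbad hK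
  -- sizes
  have hx1 : (S \ H).card ≤ (S \ good S).card :=
    Finset.card_le_card (Finset.sdiff_subset_sdiff (le_refl S) hgH)
  have hSH : (S ∩ H).card + (S \ H).card = S.card := Finset.card_inter_add_card_sdiff S H
  have hHS : (H ∩ S).card + (H \ S).card = H.card := Finset.card_inter_add_card_sdiff H S
  have hcomm : (H ∩ S).card = (S ∩ H).card := by rw [Finset.inter_comm]
  rw [card_badpairs] at hbad
  refine ⟨H, ⟨a0, hgH ha0⟩, hcl, ?_, ?_, ?_⟩
  · -- H \ S
    have h1 : (H \ S).card * ((S ∩ H).card - (H \ S).card) ≤ K * S.card := by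
      have h2 : ∀ h ∈ H \ S, (S ∩ H).card - (H \ S).card ≤
          ((S ∩ H).filter fun a => -h - a ∈ S).card := by
        intro h hh
        rw [Finset.mem_sdiff] at hh
        have h3 : ((S ∩ H).filter fun a => -h - a ∈ S).card +
            ((S ∩ H).filter fun a => ¬ (-h - a ∈ S)).card = (S ∩ H).card :=
          Finset.card_filter_add_card_filter_not _
        have h4 : ((S ∩ H).filter fun a => ¬ (-h - a ∈ S)).card ≤ (H \ S).card := by
          refine Finset.card_le_card_of_injOn (fun a => -h - a) ?_ ?_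
          · intro a ha
            rw [Finset.mem_coe, Finset.mem_filter, Finset.mem_inter] at ha
            exact Finset.mem_coe.2 (Finset.mem_sdiff.2 ⟨hcl h hh.1 a ha.1.2, ha.2⟩)
          · intro a _ a' _ haa
            exact sub_right_injective haa
        omega
      have h5 : ∑ h ∈ H \ S, ((S ∩ H).filter fun a => -h - a ∈ S).card ≤ ∑ a ∈ S, bad S a := by
        rw [← card_badpairs, ← Finset.card_sigma]
        refine Finset.card_le_card_of_injOn (fun z => (z.2, -z.1 - z.2)) ?_ ?_
        · rintro ⟨h, a⟩ hz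
          rw [Finset.mem_coe, Finset.mem_sigma, Finset.mem_filter, Finset.mem_inter,
            Finset.mem_sdiff] at hz
          rw [Finset.mem_coe, Finset.mem_filter, Finset.mem_product]
          simp only at hz ⊢
          refine ⟨⟨hz.2.1.1, hz.2.2⟩, ?_⟩
          have e : -a - (-h - a) = h := by abel
          rw [e]
          exact hz.1.2
        · rintro ⟨h, a⟩ _ ⟨h', a'⟩ _ hh
          simp only [Prod.mk.injEq] at hh
          obtain ⟨h3, h4⟩ := hh
          subst h3
          have h6 : h = h' := by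
            have h7 : -h = -h' := sub_left_injective h4
            exact neg_injective h7
          rw [h6]
      calc (H \ S).card * ((S ∩ H).card - (H \ S).card)
          = ∑ h ∈ H \ S, ((S ∩ H).card - (H \ S).card) := by
            rw [Finset.sum_const, smul_eq_mul]
        _ ≤ ∑ h ∈ H \ S, ((S ∩ H).filter fun a => -h - a ∈ S).card := Finset.sum_le_sum h2
        _ ≤ _ := h5
        _ ≤ _ := hbad
    -- arithmetic
    have h6 : 40 * (H \ S).card < 14 * S.card := by omega
    have h7 : 22 * S.card ≤ 40 * ((S ∩ H).card - (H \ S).card) := by omega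
    have h8 : (H \ S).card * (22 * S.card) ≤ 40 * (K * S.card) := by
      calc (H \ S).card * (22 * S.card) ≤ (H \ S).card * (40 * ((S ∩ H).card - (H \ S).card)) :=
            Nat.mul_le_mul_left _ h7
        _ = 40 * ((H \ S).card * ((S ∩ H).card - (H \ S).card)) := by ring
        _ ≤ _ := Nat.mul_le_mul_left _ h1
    have h9 : S.card * (22 * (H \ S).card) ≤ S.card * (40 * K) := by nlinarith
    have h10 := Nat.le_of_mul_le_mul_left h9 hn
    omega
  · -- S \ H
    have h1 : (S \ H).card * ((S ∩ H).card - (S \ H).card) ≤ K * S.card := by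
      have h2 : ∀ a ∈ S \ H, (S ∩ H).card - (S \ H).card ≤ bad S a := by
        intro a ha
        rw [Finset.mem_sdiff] at ha
        have h3 : ((S ∩ H).filter fun b => -a - b ∈ S).card +
            ((S ∩ H).filter fun b => ¬ (-a - b ∈ S)).card = (S ∩ H).card :=
          Finset.card_filter_add_card_filter_not _
        have h4 : ((S ∩ H).filter fun b => -a - b ∈ S).card ≤ (S \ H).card := by
          refine Finset.card_le_card_of_injOn (fun b => -a - b) ?_ ?_
          · intro b hb
            rw [Finset.mem_coe, Finset.mem_filter, Finset.mem_inter] at hb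
            refine Finset.mem_coe.2 (Finset.mem_sdiff.2 ⟨hb.2, fun hh => ha.2 ?_⟩)
            have h5 := hcl b hb.1.2 _ hh
            have e : -b - (-a - b) = a := by abel
            rwa [e] at h5
          · intro b _ b' _ hbb
            exact sub_right_injective hbb
        have h5 : ((S ∩ H).filter fun b => ¬ (-a - b ∈ S)).card ≤ bad S a :=
          Finset.card_le_card (Finset.filter_subset_filter _ Finset.inter_subset_left)
        omega
      calc (S \ H).card * ((S ∩ H).card - (S \ H).card)
          = ∑ a ∈ S \ H, ((S ∩ H).card - (S \ H).card) := by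
            rw [Finset.sum_const, smul_eq_mul]
        _ ≤ ∑ a ∈ S \ H, bad S a := Finset.sum_le_sum h2
        _ ≤ ∑ a ∈ S, bad S a := Finset.sum_le_sum_of_subset Finset.sdiff_subset
        _ ≤ _ := hbad
    have h7 : 8 * S.card ≤ 10 * ((S ∩ H).card - (S \ H).card) := by omega
    have h8 : (S \ H).card * (8 * S.card) ≤ 10 * (K * S.card) := by
      calc (S \ H).card * (8 * S.card) ≤ (S \ H).card * (10 * ((S ∩ H).card - (S \ H).card)) :=
            Nat.mul_le_mul_left _ h7
        _ = 10 * ((S \ H).card * ((S ∩ H).card - (S \ H).card)) := by ring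
        _ ≤ _ := Nat.mul_le_mul_left _ h1
    have h9 : S.card * (8 * (S \ H).card) ≤ S.card * (10 * K) := by nlinarith
    have h10 := Nat.le_of_mul_le_mul_left h9 hn
    omega
  · intro h hh
    rw [hmem] at hh
    obtain ⟨x, hx, y, hy, e⟩ := (mem_H0 S).1 hh
    refine ⟨a0, hgS _ ha0, x, hgS _ hx, y, hgS _ hy, ?_⟩
    have e2 : h = a0 + (h - a0) := by abel
    rw [e2, e]
    abel

end

end Pool.Agent.GTO.H20
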