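import Pool.Agent.GTO.StmtsA

/-! Squad GTO, row UNQ. -/

set_option autoImplicit false

namespace Pool.Agent.GTO.H20

open Finset
open scoped Classical

theorem dt_cyc (u v w : V) : dt u v w = dt v w u := by
  simp only [dt]
  ring

theorem dt_swap (u v w : V) : dt u w v = - dt u v w := by
  simp only [dt]
  ring

theorem flp_flp {ι : Type} (σ : ι → Bool) (i : ι) : flp (flp σ i) i = σ := by
  funext j
  by_cases h : j = i
  · subst h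
    simp [flp]
  · simp [flp, Function.update_of_ne h]

theorem flp_inj {ι : Type} {σ τ : ι → Bool} {i : ι} (h : flp σ i = flp τ i) : σ = τ := by
  rw [← flp_flp σ i, h, flp_flp]

theorem good_rot {ι : Type} [Fintype ι] {a : ι → V} {d : Dat ι} (h : Good a d) :
    Good a (rot d) := by
  obtain ⟨h1, h2, h3⟩ := h
  refine ⟨?_, ?_, ?_⟩
  · simp only [rot]
    simp only [List.nodup_cons, List.mem_cons, List.not_mem_nil, or_false, not_or, not_false_eq_true,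
      List.nodup_nil, and_true, ne_eq] at h1 ⊢
    obtain ⟨⟨a1, a2, a3, a4, a5⟩, ⟨b1, b2, b3, b4⟩, ⟨c1, c2, c3⟩, ⟨e1, e2⟩, f1⟩ := h1
    refine ⟨⟨b1, Ne.symm a1, b3, b4, b2⟩, ⟨Ne.symm a2, c2, c3, c1⟩, ⟨a4, a5, a3⟩,
      ⟨f1, Ne.symm e1⟩, Ne.symm e2⟩
  · show 0 < dt (bv a d.s d.v) (bv a d.s d.w) (bv a d.s d.u)
    rw [← dt_cyc]
    exact h2
  · intro l hl1 hl2 hl3
    obtain ⟨k1, k2, k3⟩ := h3 l hl3 hl1 hl2
    refine ⟨?_, ?_, ?_⟩
    · show 0 ≤ dt (bv a d.s l) (bv a d.s d.w) (bv a d.s d.u) ∧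
        (dt (bv a d.s l) (bv a d.s d.w) (bv a d.s d.u) = 0 ↔ l = d.v')
      rw [← dt_cyc]
      exact k2
    · show 0 ≤ dt (bv a d.s d.v) (bv a d.s l) (bv a d.s d.u) ∧
        (dt (bv a d.s d.v) (bv a d.s l) (bv a d.s d.u) = 0 ↔ l = d.w')
      rw [← dt_cyc]
      exact k3
    · show 0 ≤ dt (bv a d.s d.v) (bv a d.s d.w) (bv a d.s l) ∧
        (dt (bv a d.s d.v) (bv a d.s d.w) (bv a d.s l) = 0 ↔ l = d.u')
      rw [← dt_cyc]
      exact k1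

theorem dat_ext {ι : Type} {d e : Dat ι} (h1 : d.s = e.s) (h2 : d.u = e.u) (h3 : d.v = e.v)
    (h4 : d.w = e.w) (h5 : d.u' = e.u') (h6 : d.v' = e.v') (h7 : d.w' = e.w') : d = e := by
  cases d
  cases e
  simp only at h1 h2 h3 h4 h5 h6 h7
  subst h1 h2 h3 h4 h5 h6 h7
  rfl

theorem good_ne {ι : Type} [Fintype ι] {a : ι → V} {d : Dat ι} (h : Good a d) :
    d.u ≠ d.v ∧ d.u ≠ d.w ∧ d.v ≠ d.w ∧
      (d.u' ≠ d.u ∧ d.u' ≠ d.v ∧ d.u' ≠ d.w) ∧ (d.v' ≠ d.u ∧ d.v' ≠ d.v ∧ d.v' ≠ d.w) ∧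
      (d.w' ≠ d.u ∧ d.w' ≠ d.v ∧ d.w' ≠ d.w) := by
  obtain ⟨h1, -, -⟩ := h
  simp only [List.nodup_cons, List.mem_cons, List.not_mem_nil, or_false, not_or, not_false_eq_true,
    List.nodup_nil, and_true] at h1
  obtain ⟨⟨a1, a2, a3, a4, a5⟩, ⟨b1, b2, b3, b4⟩, ⟨c1, c2, c3⟩, ⟨e1, e2⟩, f1⟩ := h1
  exact ⟨a1, a2, b1, ⟨Ne.symm a3, Ne.symm b2, Ne.symm c1⟩, ⟨Ne.symm a4, Ne.symm b3, Ne.symm c2⟩,
    ⟨Ne.symm a5, Ne.symm b4, Ne.symm c3⟩⟩

theorem good_unique (hG : GdwStmt) {ι : Type} [Fintype ι] {a : ι → V} (hP : PI a) {d e : Dat ι}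
    (hd : Good a d) (he : Good a e) (hs : d.s = e.s) (hu : d.u = e.u) : d = e := by
  obtain ⟨-, hwd, -⟩ := hG ι a hP d hd
  obtain ⟨-, hwe, -⟩ := hG ι a hP e he
  obtain ⟨n1, n2, n3, m1, m2, m3⟩ := good_ne hd
  obtain ⟨p1, p2, p3, q1, q2, q3⟩ := good_ne he
  have hset : ({d.u, d.v, d.w} : Finset ι) = {e.u, e.v, e.w} := by rw [← hwd, ← hwe, hs]
  have hv : d.v ∈ ({e.u, e.v, e.w} : Finset ι) := by
    rw [← hset]
    simp
  have hw : d.w ∈ ({e.u, e.v, e.w} : Finset ι) := by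
    rw [← hset]
    simp
  simp only [Finset.mem_insert, Finset.mem_singleton] at hv hw
  have hvw : d.v = e.v ∧ d.w = e.w := by
    rcases hv with hv | hv | hv
    · exact absurd (hu.trans hv.symm) n1
    · rcases hw with hw | hw | hw
      · exact absurd (hu.trans hw.symm) n2
      · exact absurd (hv.trans hw.symm) n3
      · exact ⟨hv, hw⟩
    · rcases hw with hw | hw | hw
      · exact absurd (hu.trans hw.symm) n2
      · exfalso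
        have h1 := hd.2.1
        have h2 := he.2.1
        rw [hs, hu, hv, hw, dt_swap] at h1
        linarith
      · exact absurd (hv.trans hw.symm) n3
  obtain ⟨hv', hw'⟩ := hvw
  obtain ⟨-, -, hd3⟩ := hd
  obtain ⟨-, -, he3⟩ := he
  rw [hs, hu, hv', hw'] at hd3
  rw [hu, hv', hw'] at m1 m2 m3
  refine dat_ext hs hu hv' hw' ?_ ?_ ?_
  · obtain ⟨k1, -, -⟩ := hd3 d.u' m1.1 m1.2.1 m1.2.2
    obtain ⟨l1, -, -⟩ := he3 d.u' m1.1 m1.2.1 m1.2.2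
    exact l1.2.1 (k1.2.2 rfl)
  · obtain ⟨-, k1, -⟩ := hd3 d.v' m2.1 m2.2.1 m2.2.2
    obtain ⟨-, l1, -⟩ := he3 d.v' m2.1 m2.2.1 m2.2.2
    exact l1.2.1 (k1.2.2 rfl)
  · obtain ⟨-, -, k1⟩ := hd3 d.w' m3.1 m3.2.1 m3.2.2
    obtain ⟨-, -, l1⟩ := he3 d.w' m3.1 m3.2.1 m3.2.2
    exact l1.2.1 (k1.2.2 rfl)

theorem unq (hG : GdwStmt) : UnqStmt := by
  intro ι _ a hP
  refine ⟨fun d hd => good_rot hd, fun d e hd he hs hu => good_unique hG hP hd he hs hu, ?_, ?_⟩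
  · rintro d e e' ⟨-, he, hs, hu, -⟩ ⟨-, he', hs', hu', -⟩
    exact good_unique hG hP he he' (hs.trans hs'.symm) (hu.trans hu'.symm)
  · rintro d d' e ⟨hd, -, hs, hu, -, -, hv, -⟩ ⟨hd', -, hs', hu', -, -, hv', -⟩
    have hw : d.w = d'.w := hu.symm.trans hu'
    refine good_unique hG hP hd hd' ?_ (hv.symm.trans hv')
    have h1 : flp d.s d.w = flp d'.s d'.w := hs.symm.trans hs'
    rw [hw] at h1
    exact flp_inj h1

end Pool.Agent.GTO.H20
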